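import Mathlib
import Pool.Agent.MP_e23604_nt.T.CGal
import Pool.Agent.MP_e23604_nt.L.Locq
import Pool.Agent.MP_e23604_nt.L.Idx
import Pool.Agent.MP_e23604_nt.L.Div
import Pool.Agent.MP_e23604_nt.Q.XStc

/-! Local points modulo powers of three, and the number of Selmer classes. -/

namespace Pool.Agent.MP_e23604_nt.T.Cv

open B L
open scoped Classical

variable (W : WeierstrassCurve ℚ)

/-- Selmer cocycles killed by `3 ^ k` -/
def Sel (k : ℕ) (ξ : GQ → Pts W Qb) : Prop :=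
  ξ ∈ cocycles W ∧ (∀ g, 3 ^ k • ξ g = 0) ∧ ∀ (q : ℕ) [Fact q.Prime], LocTriv W ℚ_[q] ξ

/-- strict Selmer cocycles -/
def Str : Set (GQ → Pts W Qb) := {ξ | (∃ k, Sel W k ξ) ∧ ∀ g ∈ DP P3, ξ g = 0}

theorem Sel.sub {W : WeierstrassCurve ℚ} {k : ℕ} {ξ ξ' : GQ → Pts W Qb} (h : Sel W k ξ)
    (h' : Sel W k ξ') : Sel W k (ξ - ξ') :=
  ⟨sub_mem h.1 h'.1, fun g => by rw [Pi.sub_apply, nsmul_sub, h.2.1, h'.2.1, sub_self],
    fun q _ => by
      rw [sub_eq_add_neg]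
      exact (h.2.2 q).add (h'.2.2 q).neg⟩

theorem sel_dd {k : ℕ} {R : Pts W Qb} (h : ∀ g, 3 ^ k • (galQ W g R - R) = 0) :
    Sel W k (BSel_dd W R) := ⟨BSel_dd_mem W R, h, fun _ _ => BSel_dd_loc W R _⟩

variable [W.IsElliptic]

theorem div3 (hW : Intg (NormedField.toAbsoluteValue (PadicAlgCl 3)) (W.baseChange (PadicAlgCl 3)))
    (k : ℕ) : ∀ S : Pts W (PadicAlgCl 3), Fx W 3 S →
      E1 (NormedField.toAbsoluteValue (PadicAlgCl 3)) S → ‖zz S‖ * 3 ^ (k + 2) ≤ 1 →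
      ∃ D, Fx W 3 D ∧ 3 ^ k • D = S := by
  have hv : IsNonarchimedean (NormedField.toAbsoluteValue (PadicAlgCl 3)) :=
    fun x y => IsUltrametricDist.norm_add_le_max x y
  have : (W.baseChange (PadicAlgCl 3)).IsElliptic :=
    inferInstanceAs (W.map (algebraMap ℚ (PadicAlgCl 3))).IsElliptic
  have n3 : ‖((3 : ℕ) : PadicAlgCl 3)‖ = 1 / 3 := by
    rw [norm_nat_Locq, Padic.norm_p]
    norm_num
  induction k with
  | zero => exact fun S h _ _ => ⟨S, h, by simp⟩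
  | succ k ih =>
    intro S h1 h2 h3
    have p1 : (1 : ℝ) ≤ 3 ^ k := one_le_pow₀ (by norm_num)
    rw [pow_add, pow_add] at h3
    obtain ⟨D, ⟨d1, d2, d3⟩, hD⟩ := div_st (PadicAlgCl 3) _ (W.baseChange (PadicAlgCl 3)) 3 S hv hW
      three_pos h2 (by
        change ‖zz S‖ < ‖((3 : ℕ) : PadicAlgCl 3)‖ ^ 2
        rw [n3]
        nlinarith [norm_nonneg (zz S)])
    obtain ⟨D', e1, e2⟩ := ih D (fun σ => by
      obtain ⟨c1, c2⟩ := act_Locq W 3 σ D d2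
      exact hD _ ⟨by rw [← map_nsmul, d1, h1 σ], c1, c2.trans_lt d3⟩) d2 (by
      rcases eq_or_ne (zz D) 0 with e | e
      · simp [e]
      have a1 : ‖zz S - (3 : ℕ) * zz D‖ ≤ ‖zz D‖ ^ 2 := d1 ▸ (bLocA_nsmul hv hW d2 3).2.1
      have a2 : ‖zz D‖ < ‖((3 : ℕ) : PadicAlgCl 3)‖ := d3
      have a3 : ‖(3 : ℕ) * zz D + (zz S - (3 : ℕ) * zz D)‖ = ‖(3 : ℕ) * zz D‖ :=
        bLocA_add_eq hv (a1.trans_lt (by
          change _ < ‖((3 : ℕ) : PadicAlgCl 3) * zz D‖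
          rw [norm_mul, pow_two]
          exact mul_lt_mul_of_pos_right a2 (norm_pos_iff.2 e)))
      rw [add_sub_cancel, norm_mul, n3] at a3
      rw [a3] at h3
      rw [pow_add]
      linarith)
    exact ⟨D', e1, by rw [pow_succ', mul_smul, e2, d1]⟩

theorem cls3 : ∃ C : ℕ, ∀ k, L.Cls W 3 (3 ^ k) (C * 3 ^ k) := by
  obtain ⟨C, hW⟩ := intg_Locq W 3
  suffices H : ∃ N : ℕ, ∀ k, L.Cls (C • W) 3 (3 ^ k) (N * 3 ^ k) from
    H.imp fun _ h k => trans_Locq W 3 C (h k)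
  generalize hW' : C • W = W' at hW
  have : W'.IsElliptic := hW' ▸ inferInstance
  have : (W'.baseChange (PadicAlgCl 3)).IsElliptic :=
    inferInstanceAs (W'.map (algebraMap ℚ (PadicAlgCl 3))).IsElliptic
  have hΔ : 0 < ‖(W'.baseChange (PadicAlgCl 3)).Δ‖ :=
    norm_pos_iff.2 (W'.baseChange (PadicAlgCl 3)).isUnit_Δ.ne_zero
  obtain ⟨m, hm⟩ := pow_unbounded_of_one_lt (1 / ‖(W'.baseChange (PadicAlgCl 3)).Δ‖)
    (show (1 : ℝ) < (3 : ℕ) by norm_num)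
  rw [div_lt_iff₀ hΔ, mul_comm] at hm
  refine ⟨(3 ^ (2 * m + 2) + 1) * 3, fun k => ?_⟩
  obtain ⟨A, hA, hS⟩ := idx_st W' 3 (k + 1) m hW hm.le
  rw [pow_succ' 3 k, ← mul_assoc] at hA
  have hv : IsNonarchimedean (NormedField.toAbsoluteValue (PadicAlgCl 3)) :=
    fun x y => IsUltrametricDist.norm_add_le_max x y
  choose a ha hE hz using hS
  refine ⟨fun R => if h : Fx W' 3 (3 ^ k • R) then
    Fin.castLE hA (A.equivFin ⟨a _ h, ha _ h⟩) else ⟨0, by positivity⟩, ?_⟩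
  intro R R' hR hR' hc
  simp only [dif_pos hR, dif_pos hR'] at hc
  have e : a _ hR = a _ hR' :=
    congrArg Subtype.val (A.equivFin.injective (Fin.castLE_injective _ hc))
  obtain ⟨s1, s2⟩ := sub_Locq hv hW (hE _ hR) (hE _ hR') (le_inv_Idx.1 (hz _ hR))
    (le_inv_Idx.1 (hz _ hR'))
  rw [e, sub_sub_sub_cancel_right] at s1 s2
  obtain ⟨D, d1, d2⟩ := div3 W' hW k _ (Fx_sub_Locq W' 3 hR hR') s1
    (by exact_mod_cast le_inv_Idx.2 s2)
  exact ⟨R - R' - D, by rw [nsmul_sub, nsmul_sub, d2, sub_self], by rwa [sub_sub_cancel]⟩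

theorem stc3 {k N : ℕ} (h : L.Cls W 3 (3 ^ k) N) :
    ∃ f : (GQ → Pts W Qb) → Fin N, ∀ ξ η, Sel W k ξ → Sel W k η → f ξ = f η →
      ∃ R : Pts W Qb, 3 ^ k • R = 0 ∧ ξ - η - BSel_dd W R ∈ Str W := by
  obtain ⟨cl, hcl⟩ := h
  have ex : ∀ ξ : GQ → Pts W Qb, ∃ R : Pts W (PadicAlgCl 3), LocTriv W ℚ_[3] ξ →
      ∀ (σ : PadicAlgCl 3 ≃ₐ[ℚ_[3]] PadicAlgCl 3) (τ : GQ),
        (∀ x, emb ℚ_[3] (τ x) = σ (emb ℚ_[3] x)) →
        act W (emb ℚ_[3]) (ξ τ) = act W (σ : PadicAlgCl 3 →+* PadicAlgCl 3) R - R := fun ξ => by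
    by_cases h : LocTriv W ℚ_[3] ξ
    · exact ⟨h.choose, fun _ => h.choose_spec⟩
    · exact ⟨0, fun h' => absurd h' h⟩
  choose r hr using ex
  have fx : ∀ ξ, Sel W k ξ → Fx W 3 (3 ^ k • r ξ) := fun ξ a σ => by
    obtain ⟨τ, hτ⟩ := exists_res ℚ_[3] σ
    rw [← sub_eq_zero, map_nsmul, ← nsmul_sub, ← hr ξ (a.2.2 3) σ τ hτ, ← map_nsmul, a.2.1,
      map_zero]
  refine ⟨fun ξ => cl (r ξ), fun ξ η a b e => ?_⟩
  obtain ⟨T, t1, t2⟩ := hcl _ _ (fx ξ a) (fx η b) e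
  obtain ⟨R, r1, rfl⟩ := Q.tors_XStc W (emb ℚ_[3]) (by positivity) T t1
  have c := (a.sub b).sub (sel_dd W (k := k) (R := R) fun g => by
    rw [nsmul_sub, ← map_nsmul, r1, map_zero, sub_zero])
  refine ⟨R, r1, ⟨k, c⟩, fun g hg => ?_⟩
  obtain ⟨X, hX⟩ := BSel_finset c.1.1 g
  obtain ⟨σ, τ, h₁, h₂⟩ := lift_loc hg X
  refine (hX τ h₂).symm.trans (BSel_act_inj W (emb ℚ_[3]) ?_)
  have e2 := t2 σ
  rw [map_sub, map_sub, sub_eq_iff_eq_add, sub_eq_iff_eq_add] at e2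
  rw [Pi.sub_apply, Pi.sub_apply, BSel_dd, map_sub, map_sub, map_sub, hr ξ (a.2.2 3) σ τ h₁,
    hr η (b.2.2 3) σ τ h₁, Q.gal_XStc W h₁, map_zero, e2]
  abel

theorem cnt3 (hfin : (Str W).Finite) : ∃ C : ℕ, ∀ (k : ℕ) (I : Type) (ξ : I → GQ → Pts W Qb),
    (∀ s, Sel W k (ξ s)) → (∀ s s' (R : Pts W Qb), 3 ^ k • R = 0 →
      (∀ g, ξ s g - ξ s' g = galQ W g R - R) → s = s') → ENat.card I ≤ C * 3 ^ k := by
  obtain ⟨C0, hC⟩ := cls3 W
  refine ⟨C0 * (Str W).ncard, fun k I ξ hξ hinj => ?_⟩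
  rcases isEmpty_or_nonempty I with hI | hI
  · rw [ENat.card_eq_coe_natCard, Nat.card_of_isEmpty]
    simp
  obtain ⟨c, hc⟩ := stc3 W (hC k)
  let b := Function.invFun fun s => c (ξ s)
  have hb : ∀ s, c (ξ (b (c (ξ s)))) = c (ξ s) := fun s =>
    Function.invFun_eq (f := fun s => c (ξ s)) ⟨s, rfl⟩
  choose R hR hR' using fun s => hc _ _ (hξ s) (hξ _) (hb s).symm
  let f : I → Fin (C0 * 3 ^ k) × Str W := fun s => (c (ξ s), ⟨_, hR' s⟩)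
  have hf : Function.Injective f := by
    intro s s' h
    have e1 : c (ξ s) = c (ξ s') := congrArg (fun p => p.1) h
    have e2 := congrArg (fun p => p.2.1) h
    refine hinj s s' (R s - R s') (by rw [smul_sub, hR, hR, sub_zero]) fun g => ?_
    have e3 : ξ s g - ξ (b (c (ξ s))) g - (galQ W g (R s) - R s) =
        ξ s' g - ξ (b (c (ξ s'))) g - (galQ W g (R s') - R s') := congrFun e2 g
    rw [e1] at e3
    rw [map_sub]
    linear_combination (norm := abel) e3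
  have := hfin.to_subtype
  refine (ENat.card_le_card_of_injective hf).trans ?_
  rw [ENat.card_eq_coe_natCard, Nat.card_prod, Nat.card_coe_set_eq, Nat.card_fin, mul_right_comm]
  push_cast
  rfl

end Pool.Agent.MP_e23604_nt.T.Cv
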