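import Mathlib
import Pool.Agent.MP_e23604_nt.T.CIdx
import Pool.Agent.MP_e23604_nt.L.Uni

/-! Finite generation and the bound for the Selmer group. -/

namespace Pool.Agent.MP_e23604_nt.T.Cv

open B L WeierstrassCurve Finset
open scoped Classical

theorem sel_fin (V : WeierstrassCurve ℤ) (hΔ : V.Δ ≠ 0) :
    {ξ | Sel (V.baseChange ℚ) 1 ξ}.Finite := by
  set W := V.baseChange ℚ with hW
  set S := V.Δ.natAbs.primeFactors with hS
  have hp := Nat.prime_three
  have h2 : 3 ≠ 2 := by norm_num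
  have eΔ : W.Δ = V.Δ := map_Δ V _
  have : W.IsElliptic := ⟨by rw [eΔ]; exact (Int.cast_ne_zero.2 hΔ).isUnit⟩
  have inst : ∀ q : S.erase 3, Fact (q : ℕ).Prime := fun q =>
    ⟨Nat.prime_of_mem_primeFactors (Finset.mem_of_mem_erase q.2)⟩
  have intg : ∀ {F : Type} [Field F] [CharZero F] {v : AbsoluteValue F ℝ}, IsNonarchimedean v →
      Intg v (W.baseChange F) := fun {F} _ _ v hv => by
    have h : ∀ n : ℤ, v (algebraMap ℚ F (algebraMap ℤ ℚ n)) ≤ 1 := fun n => by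
      rw [eq_intCast, map_intCast]
      exact v_int hv (isIntegral_algebraMap (R := ℤ))
    exact ⟨h _, h _, h _, h _, h _⟩
  have cop : ∀ (q : ℕ) [Fact q.Prime] (γ : GQ) (n : ℤ), ¬ (q : ℤ) ∣ n → nv q γ n = 1 :=
    fun q hq γ n h => v_coprime (nv_na q γ) hq.out (nv_lt q γ) h
  have good : ∀ (q : ℕ) [Fact q.Prime] (γ : GQ), q ∉ S → nv q γ (W.baseChange Qb).Δ = 1 :=
    fun q hq γ h => by
      rw [baseChange, map_Δ, eΔ, map_intCast]
      exact cop q γ _ fun h' => h (Nat.mem_primeFactors.2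
        ⟨hq.out, Int.natCast_dvd.1 h', Int.natAbs_ne_zero.2 hΔ⟩)
  have vp : ∀ (q : ℕ) [Fact q.Prime] (γ : GQ), q ≠ 3 → nv q γ (3 : ℕ) = 1 := fun q hq γ h => by
    simpa using cop q γ 3 (by
      exact_mod_cast fun e => h ((Nat.prime_dvd_prime_iff_eq hq.out hp).1 e))
  have na : ∀ (q : ℕ) [Fact q.Prime], IsNonarchimedean (NormedField.toAbsoluteValue
    (PadicAlgCl q)) := fun q _ x y => IsUltrametricDist.norm_add_le_max x y
  obtain ⟨g, hg⟩ := one_Loc W hp h2 3 (cls_uni W 3 (i := 1) hp h2 (intg (na 3)) (by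
    rw [norm_nat_Locq, Padic.norm_p, pow_one, inv_mul_cancel₀ (Nat.cast_ne_zero.2 hp.ne_zero)]))
  choose f hf using fun q : S.erase 3 => one_Loc W hp h2 q
    (cls_uni W q (i := 0) hp h2 (intg (na q)) (by
      rw [norm_nat_Locq, pow_zero, mul_one]
      exact Padic.norm_natCast_eq_one_iff.2 ((Nat.coprime_primes Fact.out hp).2
        (Finset.ne_of_mem_erase q.2))))
  have r0 : ∏ q ∈ S, q ≠ 0 := Finset.prod_ne_zero_iff.2 fun q h =>
    (Nat.prime_of_mem_primeFactors h).ne_zero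
  obtain ⟨e, hD⟩ := dat_ex W hp h2
  obtain ⟨m, m0, -, m2⟩ := dif_uni hD r0 fun q hq γ τ h hτ T => by
    have h3 : q ∉ S := fun h' => h (Dvd.dvd.mul_left (Finset.dvd_prod_of_mem _ h') _)
    have h4 : 3 • T.1 = 0 := T.2
    refine Subtype.ext (sub_eq_zero.1 (E1_tors (n := (3 : ℕ)) (nv_na q γ) (intg (nv_na q γ))
      (inr_E1 W (nv_na q γ) (intg (nv_na q γ)) (good q γ h3) hτ T) ?_ ?_))
    · simpa using vp q γ fun h' => h (h' ▸ dvd_mul_right _ _)
    · rw [natCast_zsmul, smul_sub, h4, sub_zero]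
      exact (rho W 3 τ T).2
  have hA : {ξ | L.Adm (rho W 3) ξ}.Finite := by
    by_contra h
    obtain ⟨X, h1, h2⟩ := Set.Infinite.exists_subset_card_eq h ((3 ^ 66 * m ^ 8) ^ (2 * 3) + 1)
    have := cnt_all 3 m _ (rho W 3) e X hD m2 m0 h1
    omega
  refine Set.Finite.of_finite_fibers (fun ξ => (fun q => f q ξ, g ξ)) (Set.toFinite _) ?_
  rintro _ ⟨η, a, rfl⟩
  refine ((hA.image fun d σ => η σ + (d σ : Pts W Qb)).subset ?_)
  rintro ξ ⟨b, k⟩
  obtain ⟨k1, k2⟩ := Prod.ext_iff.1 (Set.mem_singleton_iff.1 k)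
  have c := Sel.sub b a
  refine ⟨fun σ => ⟨(ξ - η) σ, c.2.1 σ⟩, ⟨fun σ τ => Subtype.ext (c.1.2 σ τ),
    IsLocallyConstant.desc _ Subtype.val c.1.1 Subtype.val_injective, fun q _ γ => ?_⟩,
    funext fun σ => add_sub_cancel _ _⟩
  suffices H : ∃ R : Pts W Qb, 3 • R = 0 ∧ ∀ τ : GQ, Inr (nv q γ) τ → ξ τ - η τ = galQ W τ R - R by
    obtain ⟨R, r1, r2⟩ := H
    exact ⟨⟨R, r1⟩, fun τ hτ => Subtype.ext (r2 τ hτ)⟩
  by_cases q2 : q = 3
  · subst q2
    exact hg ξ η b.1 a.1 b.2.1 a.2.1 (b.2.2 3) (a.2.2 3) k2 γ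
  by_cases q1 : q ∈ S
  · exact hf ⟨q, Finset.mem_erase.2 ⟨q2, q1⟩⟩ ξ η b.1 a.1 b.2.1 a.2.1 (b.2.2 q) (a.2.2 q)
      (congrFun k1 _) γ
  refine ⟨0, smul_zero _, fun τ hτ => ?_⟩
  rw [map_zero, sub_zero]
  exact sel_unram W c.1 (p := 3) c.2.1 q (c.2.2 q) γ (intg (nv_na q γ)) (good q γ q1)
    (vp q γ q2) hτ

theorem ind3 (M : Type) [AddCommGroup M] (hM : AddGroup.FG M) (k : ℕ) :
    ∃ f : (Fin (Module.finrank ℤ M) → Fin (3 ^ k)) → M,
      ∀ s s' T, f s = f s' + 3 ^ k • T → s = s' := by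
  have : Module.Finite ℤ M := Module.Finite.iff_addGroup_fg.2 hM
  have hr : Module.finrank ℤ (M ⧸ Submodule.torsion ℤ M) = Module.finrank ℤ M :=
    finrank_quotient_eq_of_le_torsion le_rfl
  let b := Module.finBasisOfFinrankEq ℤ (M ⧸ Submodule.torsion ℤ M) hr
  choose P hP using fun i => (Submodule.torsion ℤ M).mkQ_surjective (b i)
  refine ⟨fun s => ∑ i, ((s i : ℕ) : ℤ) • P i, fun s s' T h => funext fun i => ?_⟩
  have h1 := congrArg (fun x => b.coord i ((Submodule.torsion ℤ M).mkQ x)) h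
  simp only [map_add, map_sum, map_smul, map_nsmul, hP, Module.Basis.coord_apply,
    Module.Basis.repr_self, Finsupp.single_apply, smul_eq_mul, mul_ite, mul_one, mul_zero,
    sum_ite_eq', mem_univ, if_true, nsmul_eq_mul] at h1
  have h2 : ((s i : ℕ) : ℤ) % ((3 ^ k : ℕ) : ℤ) = ((s' i : ℕ) : ℤ) % ((3 ^ k : ℕ) : ℤ) := by
    rw [h1, Int.add_mul_emod_self_left]
  rw [Int.emod_eq_of_lt (Int.natCast_nonneg _) (by exact_mod_cast (s i).2),
    Int.emod_eq_of_lt (Int.natCast_nonneg _) (by exact_mod_cast (s' i).2)] at h2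
  exact Fin.ext (by exact_mod_cast h2)

section
attribute [local instance 2000] decQ

variable (W : WeierstrassCurve ℚ)

theorem fix_pt {P : Pts W Qb} (h : ∀ g, galQ W g P = P) : ∃ P₀, rp W Qb P₀ = P := by
  rcases P with _ | ⟨x, y, hxy⟩
  · exact ⟨0, map_zero _⟩
  have key : ∀ g : GQ, g x = x ∧ g y = y := fun g => by
    obtain ⟨h', e⟩ := BSel_act_some W (g : Qb →+* Qb) hxy
    exact (Affine.Point.some.injEq _ _ _ _ _ _).mp (e.symm.trans (h g))
  obtain ⟨a, rfl⟩ := fixed_rat fun g => (key g).1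
  obtain ⟨b, rfl⟩ := fixed_rat fun g => (key g).2
  exact ⟨.some a b ((Affine.baseChange_nonsingular W (f := (Rat.castHom Qb).toRatAlgHom)
    (Rat.castHom Qb).injective a b).1 hxy), rfl⟩

variable [W.IsElliptic]

theorem kum3 (k : ℕ) : ∃ κ : Pts W ℚ → Pts W Qb, (∀ T, Sel W k (BSel_dd W (κ T))) ∧
    ∀ T T' (R : Pts W Qb), 3 ^ k • R = 0 →
      (∀ g, BSel_dd W (κ T) g - BSel_dd W (κ T') g = galQ W g R - R) →
      ∃ T'', T = T' + 3 ^ k • T'' := by
  have : (W.baseChange Qb).IsElliptic := inferInstanceAs (W.map _).IsElliptic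
  choose κ hκ using fun T : Pts W ℚ =>
    smul_surj (W := W.baseChange Qb) (n := 3 ^ k) (by positivity) (rp W Qb T)
  refine ⟨κ, fun T => sel_dd W fun g => ?_, fun T T' R hR h => ?_⟩
  · rw [nsmul_sub, ← map_nsmul, hκ, galQ, act_rp, sub_self]
  · obtain ⟨T'', hT⟩ := fix_pt W (P := κ T - κ T' - R) fun σ => by
      have := h σ
      simp only [BSel_dd, map_sub] at this ⊢
      linear_combination (norm := abel) this
    refine ⟨T'', BSel_act_inj W (Rat.castHom Qb) ?_⟩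
    change rp W Qb T = rp W Qb (T' + 3 ^ k • T'')
    rw [map_add, map_nsmul, hT, nsmul_sub, nsmul_sub, hκ, hκ, hR]
    abel

theorem fg_pts (h : {ξ | Sel W 1 ξ}.Finite) : AddGroup.FG (Pts W ℚ) := by
  have ell : (W.baseChange ℚ).IsElliptic := inferInstanceAs (W.map _).IsElliptic
  obtain ⟨κ, k1, k2⟩ := kum3 W 1
  have := h.to_subtype
  have : Finite (Pts W ℚ ⧸ (nsmulAddMonoidHom (α := Pts W ℚ) 3).range) :=
    Finite.of_injective (fun s => (⟨_, k1 s.out⟩ : {ξ | Sel W 1 ξ})) fun s s' e => by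
      obtain ⟨T, hT⟩ := k2 s.out s'.out 0 (smul_zero _) fun g => by
        rw [show BSel_dd W (κ s.out) = BSel_dd W (κ s'.out) from congrArg Subtype.val e, map_zero,
          sub_self, sub_self]
      rw [← QuotientAddGroup.out_eq' s, ← QuotientAddGroup.out_eq' s', eq_comm,
        QuotientAddGroup.eq]
      exact ⟨T, by rw [hT, neg_add_cancel_left, pow_one]; rfl⟩
  exact @fg_of_three decQ _ ell AddSubgroup.finiteIndex_of_finite_quotient

theorem cork_pts (hF : AddGroup.FG (Pts W ℚ)) (hS : (Str W).Finite) : ∃ C : ℕ, ∀ k : ℕ,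
    {c | c ∈ Sha W ∧ 3 ^ k • c = 0}.encard * 3 ^ (k * Module.finrank ℤ (Pts W ℚ)) ≤ C * 3 ^ k := by
  obtain ⟨C, hC⟩ := cnt3 W hS
  refine ⟨C, fun k => ?_⟩
  obtain ⟨κ, k1, k2⟩ := kum3 W k
  obtain ⟨f, hf⟩ := ind3 _ hF k
  choose rep r1 r2 r3 using fun c : {c | c ∈ Sha W ∧ 3 ^ k • c = 0} =>
    sha_rep W (pow_pos three_pos k) c.2.1 c.2.2
  have h := hC k ({c | c ∈ Sha W ∧ 3 ^ k • c = 0} × (Fin (Module.finrank ℤ (Pts W ℚ)) →
    Fin (3 ^ k))) (fun x => (rep x.1).1 + BSel_dd W (κ (f x.2))) (fun x => by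
      obtain ⟨a1, a2, a3⟩ := k1 (f x.2)
      exact ⟨add_mem (rep x.1).2 a1, fun g => by rw [Pi.add_apply, smul_add, r2, a2, add_zero],
        fun q _ => (r3 x.1 q).add (a3 q)⟩) (by
      rintro ⟨c, s⟩ ⟨c', s'⟩ R hR h
      simp only [Pi.add_apply] at h
      have e : c = c' := by
        apply Subtype.ext
        rw [← r1 c, ← r1 c']
        refine QuotientAddGroup.eq.2 ⟨κ (f s) - κ (f s') - R, ?_⟩
        rintro g _ rfl
        have h1 := h g
        change -(rep c).1 g + (rep c').1 g = _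
        simp only [BSel_dd, map_sub] at h1 ⊢
        linear_combination (norm := abel) -h1
      subst e
      obtain ⟨T, hT⟩ := k2 (f s) (f s') R hR fun g => by rw [← h g]; abel
      rw [hf s s' T hT])
  rw [ENat.card_prod, ENat.card_eq_coe_fintype_card (α := Fin _ → Fin _), Fintype.card_fun,
    Fintype.card_fin, Fintype.card_fin, ← pow_mul] at h
  push_cast at h
  exact h

end

theorem fg_congr {W W' : WeierstrassCurve ℚ} (e : W = W') (d d' : DecidableEq ℚ)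
    (h : letI := d; AddGroup.FG W.toAffine.Point) : letI := d'; AddGroup.FG W'.toAffine.Point := by
  subst e
  cases Subsingleton.elim d d'
  exact h

theorem bc_self (W : WeierstrassCurve ℚ) : W.baseChange ℚ = W := by
  ext <;> simp [baseChange]

theorem ell_int (V : WeierstrassCurve ℤ) (hΔ : V.Δ ≠ 0) : (V.baseChange ℚ).IsElliptic :=
  ⟨by rw [show (V.baseChange ℚ).Δ = V.Δ from map_Δ V _]; exact (Int.cast_ne_zero.2 hΔ).isUnit⟩

/-- the theorem of Mordell -/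
theorem fg_int (V : WeierstrassCurve ℤ) (hΔ : V.Δ ≠ 0) :
    AddGroup.FG (V.baseChange ℚ).toAffine.Point :=
  have := ell_int V hΔ
  fg_congr (bc_self _) _ _ (fg_pts _ (sel_fin V hΔ))

theorem cork_int (V : WeierstrassCurve ℤ) (hΔ : V.Δ ≠ 0) (hS : (Str (V.baseChange ℚ)).Finite) :
    Cork (V.baseChange ℚ) := by
  have := ell_int V hΔ
  obtain ⟨C, hC⟩ := cork_pts _ (fg_pts _ (sel_fin V hΔ)) hS
  refine ⟨C, fun k => ?_⟩
  rw [finrank_congr (bc_self (V.baseChange ℚ)).symm _ decQ]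
  exact hC k

end Pool.Agent.MP_e23604_nt.T.Cv
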