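import Mathlib
import Pool.Agent.MP_e23604_nt.T.CSel

/-! Finite generation for the cubic twists. -/

namespace Pool.Agent.MP_e23604_nt.T

open WeierstrassCurve Cv

theorem EC_int {D : ℕ} (hD : D ≠ 0) :
    ∃ V : WeierstrassCurve ℤ, V.Δ ≠ 0 ∧ V.baseChange ℚ = EC D := by
  refine ⟨⟨0, 0, 0, 0, -432 * D ^ 2⟩, ?_, by ext <;> simp [EC, baseChange]⟩
  rw [show (⟨0, 0, 0, 0, -432 * D ^ 2⟩ : WeierstrassCurve ℤ).Δ = -(432 ^ 3 * D ^ 4) by
    simp only [Δ, b₂, b₄, b₆, b₈]; ring]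
  exact neg_ne_zero.2 (by positivity)

theorem fgT {D : ℕ} (hD : D ≠ 0) : AddGroup.FG (EC D).toAffine.Point := by
  obtain ⟨V, h, e⟩ := EC_int hD
  exact e ▸ fg_int V h

end Pool.Agent.MP_e23604_nt.T
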