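import Mathlib
import Pool.Agent.MP_e23604_nt.T.CGm
import Pool.Agent.MP_e23604_nt.T.CIdx

/-! The isogeny from the Weierstrass model of the cubic to the twisted base curve. -/

namespace Pool.Agent.MP_e23604_nt.T.Cv

open Finset NumberField B WeierstrassCurve
open MP_f68ac8_nt
open MP_f68ac8_nt.Nd (Gz)
open Q (Wn)
open scoped Classical BigOperators

theorem vc_nat (W W' : WeierstrassCurve ℚ) (C : VariableChange ℚ) (hC : C • W = W') :
    ∃ Ψ : ∀ (F : Type) [Field F] [CharZero F], Pts W F ≃+ Pts W' F,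
      ∀ (F F' : Type) [Field F] [CharZero F] [Field F'] [CharZero F'] (f : F →+* F') (P : Pts W F),
        act W' f (Ψ F P) = Ψ F' (act W f P) := by
  subst hC
  choose Ψ hΨ using fun (F : Type) [Field F] [CharZero F] => vc_equiv (W.baseChange F)
    ((C • W).baseChange F) (C.map (algebraMap ℚ F)) (map_variableChange _ _ _)
  refine ⟨Ψ, fun F F' _ _ _ _ f P => ?_⟩
  rcases P with _ | ⟨x, y, hxy⟩
  · change act (C • W) f (Ψ F 0) = Ψ F' (act W f 0)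
    simp only [map_zero]
  · obtain ⟨h1, e1⟩ := hΨ F x y hxy
    obtain ⟨h2, e2⟩ := BSel_act_some W f hxy
    obtain ⟨h3, e3⟩ := hΨ F' _ _ h2
    obtain ⟨h4, e4⟩ := BSel_act_some (C • W) f h1
    rw [e1, e2, e3, e4]
    simp [VariableChange.map]

theorem sel_unr {D c n : ℕ} (hc : c ≠ 0) (hD : D = c ^ 3 * n) {k : ℕ} {ξ : GQ → Pts (EC D) Qb}
    (h : Sel (EC D) k ξ) {P : Ideal (𝓞 Qb)} (hP : P.IsMaximal) (h3 : ((3 : ℕ) : 𝓞 Qb) ∉ P)
    (hn : (n : 𝓞 Qb) ∉ P) {g : GQ} (hg : g ∈ P.inertia GQ) : ξ g = 0 := by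
  obtain ⟨l, hl, hlP⟩ := exists_prime_mem (Ω := Qb) P
  have : Fact l.Prime := ⟨hl⟩
  obtain ⟨ρ, hρ⟩ := inr_of_mem hP l hlP
  have hv := nv_na l ρ
  have un : ∀ m : ℕ, (m : 𝓞 Qb) ∉ P → nv l ρ m = 1 := fun m hm => by
    simpa using v_coprime hv hl (nv_lt l ρ) (n := m) fun e => by
      obtain ⟨t, rfl⟩ := Int.natCast_dvd_natCast.1 e
      exact hm (by rw [Nat.cast_mul]; exact P.mul_mem_right _ hlP)
  have v3 : nv l ρ 3 = 1 := by simpa using un 3 h3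
  have vn := un n hn
  have c0 : (2 * c : ℚ) ≠ 0 := by positivity
  obtain ⟨Ψ, hΨ⟩ := vc_nat (EC D) ⟨0, 0, -3 ^ 2 * n, 0, -3 ^ 3 * n ^ 2⟩
    ⟨Units.mk0 _ c0, 0, 0, -36 * D⟩ (by
      ext <;> simp [EC, variableChange_def, hD] <;> field_simp <;> ring)
  apply (Ψ Qb).injective
  rw [map_zero]
  refine sel_unram _ (ξ := fun g => Ψ Qb (ξ g)) ⟨h.1.1.comp _, fun σ τ => ?_⟩ (p := 3 ^ k)
    (fun σ => ?_) l ?_ ρ ?_ ?_ ?_ (hρ g hg)
  · beta_reduce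
    rw [h.1.2 σ τ, map_add, galQ, galQ, hΨ]
  · rw [← map_nsmul, h.2.1, map_zero]
  · obtain ⟨R, hR⟩ := h.2.2 l
    exact ⟨Ψ _ R, fun σ τ e => by rw [hΨ, hΨ, hR σ τ e, map_sub]⟩
  · simp [Intg, baseChange, v3, vn]
  · rw [baseChange, map_Δ, show (⟨0, 0, -3 ^ 2 * n, 0, -3 ^ 3 * n ^ 2⟩ : WeierstrassCurve ℚ).Δ =
      -3 ^ 9 * n ^ 4 by simp only [Δ, b₂, b₄, b₆, b₈]; ring]
    simp [v3, vn]
  · rw [Nat.cast_pow, map_pow, Nat.cast_ofNat, v3, one_pow]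

theorem iso_ex {δ : Qb} {D : ℕ} (hD : D ≠ 0) (hδ : δ ^ 3 = D) {η : GQ →* (A3 ≃ₗ[ℤ] A3)}
    (hη : Eta δ η) : ∃ ι : Pts (EC D) Qb ≃+ A3, ∀ g R,
      (g ∈ Gz 3 → ι (galQ (EC D) g R) = η g (ι R)) ∧
      (g ∉ Gz 3 → ι (galQ (EC D) g R) = -η g (ι R)) := by
  have h0 := root_ne hD hδ
  have hs : (1 + 2 * xi) ^ 2 = -3 := by linear_combination 4 * xi_sq
  have s1 : ∀ g ∈ Gz 3, g (1 + 2 * xi) = 1 + 2 * xi := fun g hg => by
    rw [map_add, map_mul, map_one, map_ofNat, xi_pos hg]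
  have s2 : ∀ g ∉ Gz 3, g (1 + 2 * xi) = -(1 + 2 * xi) := fun g hg => by
    rw [map_add, map_mul, map_one, map_ofNat, xi_neg hg]
    linear_combination 2 * xi_sq
  generalize 1 + 2 * xi = s at hs s1 s2
  have s0 : s ≠ 0 := by
    rintro rfl
    norm_num at hs
  have u0 : 2 * s * δ ≠ 0 := mul_ne_zero (mul_ne_zero two_ne_zero s0) h0
  have u6 : (2 * s * δ) ^ 6 = -1728 * D ^ 2 := by
    rw [← hδ]
    linear_combination (64 * δ ^ 6 * (s ^ 4 - 3 * s ^ 2 + 9)) * hs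
  have gu : ∀ g : GQ, g (2 * s * δ) = 2 * g s * δ * (g δ / δ) := fun g => by
    rw [map_mul, map_mul, map_ofNat]
    field_simp
  have g1 : ∀ g ∈ Gz 3, g (2 * s * δ) = 2 * s * δ * (g δ / δ) := fun g hg => by rw [gu, s1 g hg]
  have g2 : ∀ g ∉ Gz 3, g (2 * s * δ) = -(2 * s * δ * (g δ / δ)) := fun g hg => by
    rw [gu, s2 g hg]
    ring
  generalize 2 * s * δ = u at u0 u6 g1 g2
  obtain ⟨ι, hι⟩ := vc_equiv ((EC D).baseChange Qb) ((E3 0 1).baseChange Qb)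
    ⟨Units.mk0 u u0, 0, 0, u ^ 3 / 2⟩ (by
      ext <;> simp [EC, E3, baseChange, variableChange_def] <;> field_simp
      right
      linear_combination -u6)
  have key : ∀ x y h, On 0 1 (x / u ^ 2) ((y - u ^ 3 / 2) / u ^ 3) ∧
      ι (.some x y h) = pt 0 1 (x / u ^ 2) ((y - u ^ 3 / 2) / u ^ 3) := fun x y h => by
    obtain ⟨h', e⟩ := hι x y h
    simp only [Units.val_mk0, sub_zero, zero_mul] at h' e
    exact ⟨(ns_iff gd _ _).1 h', e.trans (pt_eq gd ((ns_iff gd _ _).1 h')).symm⟩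
  refine ⟨ι, fun g R => ?_⟩
  rcases R with _ | ⟨x, y, h⟩
  · change (_ → ι (galQ _ g 0) = η g (ι 0)) ∧ (_ → ι (galQ _ g 0) = -η g (ι 0))
    simp only [map_zero, neg_zero, implies_true, and_self]
  obtain ⟨h', e'⟩ : ∃ h', galQ (EC D) g (.some x y h) = .some (g x) (g y) h' := ⟨_, rfl⟩
  obtain ⟨a1, a2⟩ := key x y h
  have c3 := quot_cube hD hδ g
  have c0 : g δ ≠ 0 := (map_ne_zero g).2 h0
  rw [e', (key _ _ h').2, a2, hη, gal_pt g a1, sc_pt _ (on_gal g a1),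
    pt_neg gd (on_sc c3 (on_gal g a1))]
  simp only [map_div₀, map_sub, map_pow, map_ofNat]
  refine ⟨fun hg => ?_, fun hg => ?_⟩
  · rw [g1 g hg, mul_pow u _ 3, c3, mul_one]
    congr 1
    field_simp
  · rw [g2 g hg, neg_pow _ 3, mul_pow u _ 3, c3, mul_one]
    congr 1
    · field_simp
    · push_cast
      field_simp
      ring

theorem str_fin {D c : ℕ} {R : Finset ℕ} {e : ℕ → ZMod 3} {β : ZMod 3} {δ : Qb} (hD : D ≠ 0)
    (hc : D = c ^ 3 * (3 ^ β.val * ∏ l ∈ R, l ^ (e l).val))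
    (hδ : δ ^ 3 = (3 ^ β.val * ∏ l ∈ R, l ^ (e l).val : ℕ)) {η : GQ →* (A3 ≃ₗ[ℤ] A3)}
    (hη : Eta δ η) (h1 : {ξ | Sel (EC D) 1 ξ}.Finite) (h2 : (St J3 η R).Finite) :
    (Str (EC D)).Finite := by
  have c0 : c ≠ 0 := by
    rintro rfl
    exact hD (by simpa using hc)
  have hδ' : (c * δ) ^ 3 = D := by rw [mul_pow, hδ, hc, Nat.cast_mul (c ^ 3), Nat.cast_pow]
  have hη' : Eta (c * δ) η := fun g u => by
    rw [hη, map_mul, map_natCast, mul_div_mul_left _ _ (Nat.cast_ne_zero.2 c0)]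
  obtain ⟨ι, hι⟩ := iso_ex hD hδ' hη'
  let Φ : Pts (EC D) Qb →+ A3 := AddMonoidHom.mk' (fun u => J3 (Q.om J3 (ι u))) fun u v => by
    simp only [map_add]
  have hΦ : ∀ u, Φ u = J3 (J3 (ι u)) - J3 (ι u) := fun u => map_sub J3 _ _
  have j3 : ∀ u, J3 (J3 (J3 u)) = u := fun u => by
    have a := J3_sq u
    have b := J3_sq (J3 u)
    linear_combination (norm := abel) b - a
  have com : ∀ g u, Φ (galQ (EC D) g u) = η g (Φ u) := fun g u => by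
    rw [hΦ, hΦ, map_sub]
    by_cases hg : g ∈ Gz 3
    · simp only [(hι g u).1 hg, eta_lin hD hδ' hη' hg]
    · simp only [(hι g u).2 hg, eta_ant hD hδ' hη' hg, map_neg, j3]
      abel
  have ker : ∀ u, Φ u = 0 → 3 ^ 1 • u = 0 := fun u hu => ι.injective (by
    rw [map_nsmul, map_zero]
    exact W_kill J3_sq (W_om.1 (W_zero.2 (J3.map_eq_zero_iff.1 hu))))
  refine Set.Finite.of_finite_fibers (fun ξ g => Φ (ξ g)) (h2.subset ?_) ?_
  · rintro _ ⟨ξ, ⟨⟨k, hk⟩, h0⟩, rfl⟩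
    refine ⟨hk.1.1.comp Φ, fun g h => ?_, ⟨2 * k, fun g => ?_⟩, fun P hP g hg => ?_,
      fun g hg => ?_⟩
    · simp only
      rw [hk.1.2 g h, map_add, com]
    · rw [W_tor J3_sq, ← map_nsmul, hk.2.1, map_zero]
    · simp only
      rw [sel_unr c0 hc hk hP.1 hP.2.1 (fun a => ?_) hg, map_zero]
      have := hP.1.isPrime
      rw [Nat.cast_mul, Nat.cast_pow, Nat.cast_prod] at a
      rcases this.mem_or_mem a with a | a
      · exact hP.2.1 (this.mem_of_pow_mem _ a)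
      · obtain ⟨l, l1, l2⟩ := Ideal.IsPrime.prod_mem_iff.1 a
        rw [Nat.cast_pow] at l2
        exact hP.2.2 l l1 (this.mem_of_pow_mem _ l2)
    · simp only
      rw [h0 g hg, map_zero]
  · rintro _ ⟨ξ, ⟨⟨k, hk⟩, -⟩, rfl⟩
    refine (h1.image fun d => d + ξ).subset ?_
    rintro ξ' ⟨⟨⟨k', hk'⟩, -⟩, a⟩
    refine ⟨ξ' - ξ, ⟨sub_mem hk'.1 hk.1, fun g => ker _ ?_, fun q _ => ?_⟩, sub_add_cancel _ _⟩
    · rw [Pi.sub_apply, map_sub, sub_eq_zero]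
      exact congrFun (Set.mem_singleton_iff.1 a) g
    · rw [sub_eq_add_neg]
      exact (hk'.2.2 q).add (hk.2.2 q).neg

end Pool.Agent.MP_e23604_nt.T.Cv
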