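import Mathlib
import Pool.Agent.MP_e23604_nt.T.NA
import Pool.Agent.MP_f68ac8_nt.NhSel

namespace Pool.Agent.MP_e23604_nt.TN

open NumberField Finset Filter
open MP_f68ac8_nt MP_f68ac8_nt.Nd
open scoped Topology BigOperators

theorem xSel_sup {n : ℕ} {F R R₀ : Finset ℕ} {N N₀ : Subgroup GQ} (h : Ad0 n (F ∪ R) N)
    (h₀ : Ad0 n (F ∪ R₀) N₀) (hd : Disjoint R R₀) : Ad0 n F (N ⊔ N₀) := by
  have := h.nrm
  have := h₀.nrm
  have hdv := Subgroup.index_dvd_of_le (le_sup_left : N ≤ N ⊔ N₀)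
  refine ⟨fun l hl => h.pri l (mem_union_left _ hl), inferInstance,
    mem_of_superset h.nhds (le_sup_left : N ≤ N ⊔ N₀),
    ⟨ne_zero_of_dvd_ne_zero h.idx.1 hdv,
      (Nat.le_of_dvd (Nat.pos_of_ne_zero h.idx.1) hdv).trans h.idx.2⟩, fun P hP hF g hg => ?_⟩
  by_cases hR : ∀ l ∈ R, (l : 𝓞 Qa) ∉ P
  · exact (le_sup_left : N ≤ N ⊔ N₀) (h.unr P hP (fun l hl => (mem_union.1 hl).elim (hF l) (hR l))
      g hg)
  · simp only [not_forall, not_not] at hR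
    obtain ⟨l, hl, hlP⟩ := hR
    refine (le_sup_right : N₀ ≤ N ⊔ N₀) (h₀.unr P hP
      (fun l' hl' => (mem_union.1 hl').elim (hF l') fun hl' => ?_) g hg)
    refine not_mem_of_coprime hlP ((Nat.coprime_primes (h.pri l (mem_union_right _ hl))
      (h₀.pri l' (mem_union_right _ hl'))).2 ?_)
    rintro rfl
    exact Finset.disjoint_left.1 hd hl hl'

theorem selT (hD : DiscP) (hC : CountP) (hE : ExcStmt) (hI : DichT) (hG : GrpP 3) (hZ : GzP 3) :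
    SelT := by
  intro n F
  obtain ⟨-, -, -, -, hinf, -⟩ := hZ
  obtain ⟨C, -, hD⟩ := hD n
  obtain ⟨ρ₀, hρ₀, hE⟩ := hE (C * sz F)
  obtain ⟨θ, t0, t1, t2⟩ := theta_NhSel (n * n) 3
  obtain ⟨c, hc, -, hI⟩ := hI (n * n) θ ρ₀ t0 t1 hρ₀
  refine ⟨c / 4, by positivity, fun M ρ r hρ => ?_⟩
  by_cases hbad : ∃ R₀ N₀, AdK n (F ∪ R₀) N₀ ∧ R₀.card ≤ r ∧ sz (F ∪ R₀) ≤ M ∧ ¬ GoodN N₀ ρ
  swap
  · refine ⟨∅, by simp, fun R N h hr hs _ => ?_⟩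
    by_contra hb
    exact hbad ⟨R, N, h, hr, hs, hb⟩
  obtain ⟨R₀, N₀, h₀, hr, hM, hb₀⟩ := hbad
  refine ⟨R₀, hr, fun R N h _ hs hd => ?_⟩
  by_contra hb
  have := h₀.nrm
  have hM1 : 1 ≤ M := (one_le_sz_NbRep _).trans hM
  have hA := hinf _ _ _ _ _ _ h.toAd0 h₀.toAd0
  have hK := xSel_sup h.toAd0 h₀.toAd0 hd
  have hsz : sz (F ∪ R ∪ (F ∪ R₀)) ≤ 2 * M := by
    have := sz_union_NbRep (F ∪ R) (F ∪ R₀)
    linarith
  have hq : 1 ≤ qM (2 * M) := le_trans (by linarith) (le_qM (by linarith))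
  have hρ' : ρ ≤ c / qM (2 * M) := by
    refine hρ.trans ?_
    rw [div_div]
    refine div_le_div_of_nonneg_left hc.le (by linarith) ((qM_mul one_le_two hM1).trans ?_)
    norm_num
  obtain ⟨σ, w, hw, hs, hdi, hfi⟩ := hI _ _ hA _ hsz
  obtain ⟨g1, g2⟩ := hG GQ _ (n * n) hA.nrm hA.idx.1 hA.idx.2 σ w θ hw hs t0.le
    (by exact_mod_cast t2) hdi
  have hsm : ∀ A : Subgroup GQ, N ⊓ N₀ ≤ A → ¬ GoodN A ρ → Sw σ w A ≤ θ := by
    intro A hA hb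
    by_contra hn
    refine hb fun E _ hAE => good_mono_NbSel ?_ hρ'
    by_contra hE'
    exact hn (g1 A _ hA hAE ((hfi E (hA.trans hAE)).1 hE'))
  have hle : N ⊓ N₀ ≤ N ⊔ N₀ := inf_le_left.trans le_sup_left
  have h3 := (g2 (N ⊔ N₀) hle fun g hg => by
      obtain ⟨k, hk⟩ := h.pg g (sup_le h.le h₀.le hg)
      obtain ⟨k', hk'⟩ := h₀.pg g (sup_le h.le h₀.le hg)
      refine ⟨k + k', ?_, ?_⟩
      · rw [pow_add, pow_mul]
        exact N.pow_mem hk _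
      · rw [add_comm, pow_add, pow_mul]
        exact N₀.pow_mem hk' _).1 N N₀ inf_le_left inf_le_right le_sup_left le_sup_right
    (fun x hx => Subgroup.mem_sup_of_normal_right.1 hx) (hsm N inf_le_left hb)
    (hsm N₀ inf_le_right hb₀)
  obtain ⟨E, _, hEK⟩ := (hC _ _ _ hK).1 _ le_rfl
  rw [← hEK] at h3 hle
  exact (hfi E hle).2 h3 (good_mono_NbSel (hE E (hD _ _ hK E hEK.ge).2) (div_le_self hρ₀.le hq))

end Pool.Agent.MP_e23604_nt.TN
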